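import Pool.Agent.N915.SG.Core
import Pool.Agent.N915.ML.Fin

/-! # Cosine sums, and exponential sums over orbits -/

set_option autoImplicit false

namespace Pool.Agent.N915.HT

open Finset Filter Topology
open Pool.Agent.N915.ML
open Pool.Agent.H807R2.Dav (ee norm_ee ee_add ee_zero ee_int ee_add_int ee_pow ee_eq)
open Pool.Agent.H373R2.T7 (muR muR_abs)

section
variable {q : ℕ} (χ : DirichletCharacter ℂ q)

lemma LL_odd (hχ : χ (-1) = -1) (y : ℝ) :
    LL χ y = (Complex.I / Real.pi) * ((Real.cos (2 * Real.pi * y) : ℝ) : ℂ) := by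
  unfold LL
  rw [hχ, ee_cos]
  have : (Real.pi : ℂ) ≠ 0 := by exact_mod_cast Real.pi_pos.ne'
  field_simp
  ring

/-- cosine sums from the sums of `Φ` for an odd character -/
lemma cos_bound (hq : 1 ≤ q) (hχ : χ (-1) = -1) (w : ℝ) (hw : 0 < w) :
    ∃ M : ℕ, 1 ≤ M ∧ ∃ δ : ℝ, 0 < δ ∧ ∀ {ι : Type} (S : Finset ι) (u : ι → ℝ),
      (∀ m : ℕ, 1 ≤ m → m ≤ M → ‖∑ n ∈ S, Phi χ (m * u n)‖ ≤ δ * S.card) →
      |∑ n ∈ S, Real.cos (2 * Real.pi * u n)| ≤ w * S.card := by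
  obtain ⟨M0, h0, h⟩ := unif_conv χ hq
  have hlog : Tendsto (fun M : ℕ => AA χ ^ 2 * (3 / Real.log M)) atTop (𝓝 0) := by
    have h1 : Tendsto (fun M : ℕ => Real.log M) atTop atTop :=
      Real.tendsto_log_atTop.comp tendsto_natCast_atTop_atTop
    have h2 := (h1.inv_tendsto_atTop).const_mul (AA χ ^ 2 * 3)
    rw [mul_zero] at h2
    refine h2.congr fun M => ?_
    simp only [Pi.inv_apply]
    ring
  obtain ⟨M, hM1, hM2⟩ := ((hlog.eventually (gt_mem_nhds (show (0 : ℝ) < w / 8 by positivity))).and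
    (eventually_ge_atTop M0)).exists
  have hM0 : (0 : ℝ) < M := by exact_mod_cast (by omega : 0 < M)
  refine ⟨M, by omega, w / 8 / M, by positivity, fun S u hS => ?_⟩
  have h1 : ‖∑ n ∈ S, SS χ M (u n)‖ ≤ w / 8 * S.card := by
    unfold SS
    rw [sum_comm]
    refine (norm_sum_le _ _).trans ?_
    have h1 : ∀ m ∈ Icc 1 M, ‖∑ n ∈ S, (1 / (m : ℂ)) * (((muR m : ℝ) : ℂ) * χ (m : ZMod q) *
        Phi χ (m * u n))‖ ≤ w / 8 / M * S.card := by
      intro m hm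
      rw [mem_Icc] at hm
      have h2 : ∑ n ∈ S, (1 / (m : ℂ)) * (((muR m : ℝ) : ℂ) * χ (m : ZMod q) *
        Phi χ (m * u n)) = ((1 / (m : ℂ)) * ((muR m : ℝ) : ℂ) * χ (m : ZMod q)) *
          ∑ n ∈ S, Phi χ (m * u n) := by
        rw [mul_sum]
        refine sum_congr rfl fun n _ => ?_
        ring
      rw [h2, norm_mul]
      have h3 : ‖(1 / (m : ℂ)) * ((muR m : ℝ) : ℂ) * χ (m : ZMod q)‖ ≤ 1 := by
        rw [norm_mul, norm_mul, norm_div, norm_one, Complex.norm_natCast, Complex.norm_real,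
          Real.norm_eq_abs]
        have hm1 : (1 : ℝ) ≤ m := by exact_mod_cast hm.1
        have h4 : 1 / (m : ℝ) ≤ 1 := by
          rw [div_le_one (by linarith)]
          exact hm1
        have h5 : 1 / (m : ℝ) * |muR m| ≤ 1 * 1 :=
          mul_le_mul h4 (muR_abs m) (abs_nonneg _) (by norm_num)
        calc 1 / (m : ℝ) * |muR m| * ‖χ (m : ZMod q)‖ ≤ (1 * 1) * 1 :=
              mul_le_mul h5 (norm_chi χ _) (norm_nonneg _) (by norm_num)
          _ = 1 := by norm_num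
      calc _ ≤ 1 * ‖∑ n ∈ S, Phi χ (m * u n)‖ := mul_le_mul_of_nonneg_right h3 (norm_nonneg _)
        _ = ‖∑ n ∈ S, Phi χ (m * u n)‖ := one_mul _
        _ ≤ _ := hS m hm.1 hm.2
    refine (sum_le_sum h1).trans (le_of_eq ?_)
    rw [sum_const, Nat.card_Icc, Nat.add_sub_cancel, nsmul_eq_mul]
    field_simp
  have h3 : ‖∑ n ∈ S, (LL χ (u n) - SS χ M (u n))‖ ≤ w / 8 * S.card := by
    refine (norm_sum_le _ _).trans ?_
    have h4 : ∀ n ∈ S, ‖LL χ (u n) - SS χ M (u n)‖ ≤ w / 8 := fun n _ =>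
      ((h M hM2).2 (u n)).trans hM1.le
    refine (sum_le_sum h4).trans ?_
    rw [sum_const, nsmul_eq_mul]
    exact le_of_eq (by ring)
  rw [sum_sub_distrib] at h3
  have h4 : ∑ n ∈ S, LL χ (u n) = (∑ n ∈ S, LL χ (u n) - ∑ n ∈ S, SS χ M (u n)) +
      ∑ n ∈ S, SS χ M (u n) := by ring
  have h5 : ‖∑ n ∈ S, LL χ (u n)‖ ≤ w / 4 * S.card := by
    rw [h4]
    refine (norm_add_le _ _).trans ?_
    linarith
  have h6 : ∑ n ∈ S, LL χ (u n) = (Complex.I / Real.pi) *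
      ((∑ n ∈ S, Real.cos (2 * Real.pi * u n) : ℝ) : ℂ) := by
    push_cast
    rw [mul_sum]
    refine sum_congr rfl fun n _ => ?_
    rw [LL_odd χ hχ]
    push_cast
    rfl
  rw [h6, norm_mul, norm_div, Complex.norm_I, Complex.norm_real, Complex.norm_real,
    Real.norm_of_nonneg Real.pi_pos.le, Real.norm_eq_abs] at h5
  have hpi := Real.pi_pos
  have hpi4 := Real.pi_lt_four
  have h7 : |∑ n ∈ S, Real.cos (2 * Real.pi * u n)| ≤ Real.pi * (w / 4 * S.card) := by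
    rw [one_div, inv_mul_le_iff₀ hpi] at h5
    exact h5
  refine h7.trans ?_
  have h8 : (0 : ℝ) ≤ w / 4 * S.card := mul_nonneg (by positivity) (Nat.cast_nonneg _)
  nlinarith

end

/-- shifting the range of summation -/
lemma shift_bound (z : ℕ → ℂ) (hz : ∀ n, ‖z n‖ ≤ 1) (N k : ℕ) :
    ‖∑ n ∈ range N, z n - ∑ n ∈ range N, z (n + k)‖ ≤ 2 * k := by
  have h1 : ∑ n ∈ range (k + N), z n = ∑ n ∈ range k, z n + ∑ n ∈ range N, z (k + n) :=
    sum_range_add z k N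
  have h2 : ∑ n ∈ range (N + k), z n = ∑ n ∈ range N, z n + ∑ n ∈ range k, z (N + n) :=
    sum_range_add z N k
  have h3 : ∑ n ∈ range N, z (n + k) = ∑ n ∈ range N, z (k + n) :=
    sum_congr rfl fun n _ => congrArg z (Nat.add_comm n k)
  have h4 : ∑ n ∈ range N, z n - ∑ n ∈ range N, z (n + k) =
      ∑ n ∈ range k, z n - ∑ n ∈ range k, z (N + n) := by
    rw [h3]
    rw [add_comm k N, h2] at h1
    linear_combination h1
  rw [h4]
  refine (norm_sub_le _ _).trans ?_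
  have h5 : ‖∑ n ∈ range k, z n‖ ≤ k := by
    refine (norm_sum_le _ _).trans ((sum_le_sum fun n _ => hz n).trans (le_of_eq ?_))
    simp
  have h6 : ‖∑ n ∈ range k, z (N + n)‖ ≤ k := by
    refine (norm_sum_le _ _).trans ((sum_le_sum fun n _ => hz (N + n)).trans (le_of_eq ?_))
    simp
  linarith

/-- the square of the absolute value of a sum of exponentials is a cosine polynomial -/
lemma normsq_sum (f : ℕ → ℝ) (K : ℕ) :
    ‖∑ k ∈ range K, ee (f k)‖ ^ 2 =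
      ∑ k ∈ range K, ∑ l ∈ range K, Real.cos (2 * Real.pi * (f k - f l)) := by
  have hre : ∀ t : ℝ, (ee t).re = Real.cos (2 * Real.pi * t) := by
    intro t
    rw [ee_eq, Complex.exp_ofReal_mul_I_re]
  have hconj : ∀ t : ℝ, (starRingEnd ℂ) (ee t) = ee (-t) := by
    intro t
    rw [ee_eq, ee_eq, ← Complex.exp_conj, map_mul, Complex.conj_ofReal, Complex.conj_I]
    congr 1
    push_cast
    ring
  have h1 : ((‖∑ k ∈ range K, ee (f k)‖ ^ 2 : ℝ) : ℂ) =
      ∑ k ∈ range K, ∑ l ∈ range K, ee (f k - f l) := by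
    rw [← Complex.normSq_eq_norm_sq, Complex.normSq_eq_conj_mul_self, map_sum, mul_comm,
      sum_mul_sum]
    refine sum_congr rfl fun k _ => sum_congr rfl fun l _ => ?_
    rw [hconj, ← ee_add]
    congr 1
  have h2 := congrArg Complex.re h1
  rw [Complex.ofReal_re] at h2
  rw [h2, Complex.re_sum]
  refine sum_congr rfl fun k _ => ?_
  rw [Complex.re_sum]
  exact sum_congr rfl fun l _ => hre _

/-- **van der Corput for orbits**: exponential sums from cosine sums -/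
lemma vdc (b : ℕ) (hb : 2 ≤ b) (K : ℕ) (hK : 1 ≤ K) (η : ℝ) (hη : 0 ≤ η) (y : ℝ) (N : ℕ)
    (h : ∀ g : ℕ, 1 ≤ g → g ≤ b ^ K →
      |∑ n ∈ range N, Real.cos (2 * Real.pi * (g * (y * (b : ℝ) ^ n)))| ≤ η * N) :
    K * ‖∑ n ∈ range N, ee (y * (b : ℝ) ^ n)‖ ≤ K ^ 2 + N * √(K + K ^ 2 * η) := by
  set z : ℕ → ℂ := fun n => ee (y * (b : ℝ) ^ n) with hz
  have hz1 : ∀ n, ‖z n‖ ≤ 1 := fun n => (norm_ee _).le
  set P : ℕ → ℂ := fun n => ∑ k ∈ range K, z (n + k) with hP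
  have hKR : (1 : ℝ) ≤ K := by exact_mod_cast hK
  -- the second moment
  have hcos : ∀ k ∈ range K, ∀ l ∈ range K, ∑ n ∈ range N,
      Real.cos (2 * Real.pi * (y * (b : ℝ) ^ (n + k) - y * (b : ℝ) ^ (n + l))) ≤
      (if k = l then (N : ℝ) else 0) + η * N := by
    intro k hk l hl
    have hηN : 0 ≤ η * N := by positivity
    rw [mem_range] at hk hl
    have hlt : ∀ i j : ℕ, i < j → j < K → ∃ g : ℕ, 1 ≤ g ∧ g ≤ b ^ K ∧
        (g : ℝ) = (b : ℝ) ^ j - (b : ℝ) ^ i := by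
      intro i j hij hj
      have h1 : b ^ i < b ^ j := Nat.pow_lt_pow_right (by omega) hij
      have h2 : b ^ j ≤ b ^ K := Nat.pow_le_pow_right (by omega) hj.le
      refine ⟨b ^ j - b ^ i, by omega, by omega, ?_⟩
      rw [Nat.cast_sub h1.le]
      push_cast
      rfl
    rcases lt_trichotomy k l with hkl | hkl | hkl
    · rw [if_neg hkl.ne, zero_add]
      obtain ⟨g, hg1, hg2, hg3⟩ := hlt k l hkl hl
      refine (le_of_eq ?_).trans ((le_abs_self _).trans (h g hg1 hg2))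
      refine sum_congr rfl fun n _ => ?_
      rw [← Real.cos_neg, hg3]
      congr 1
      rw [pow_add, pow_add]
      ring
    · subst hkl
      rw [if_pos rfl]
      have : ∑ n ∈ range N,
          Real.cos (2 * Real.pi * (y * (b : ℝ) ^ (n + k) - y * (b : ℝ) ^ (n + k))) = N := by
        simp
      rw [this]
      linarith
    · rw [if_neg hkl.ne', zero_add]
      obtain ⟨g, hg1, hg2, hg3⟩ := hlt l k hkl hk
      refine (le_of_eq ?_).trans ((le_abs_self _).trans (h g hg1 hg2))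
      refine sum_congr rfl fun n _ => ?_
      rw [hg3]
      congr 1
      rw [pow_add, pow_add]
      ring
  have hsq : ∑ n ∈ range N, ‖P n‖ ^ 2 ≤ N * (K + K ^ 2 * η) := by
    have h1 : ∑ n ∈ range N, ‖P n‖ ^ 2 = ∑ k ∈ range K, ∑ l ∈ range K, ∑ n ∈ range N,
        Real.cos (2 * Real.pi * (y * (b : ℝ) ^ (n + k) - y * (b : ℝ) ^ (n + l))) := by
      have h2 : ∀ n ∈ range N, ‖P n‖ ^ 2 = ∑ k ∈ range K, ∑ l ∈ range K,
          Real.cos (2 * Real.pi * (y * (b : ℝ) ^ (n + k) - y * (b : ℝ) ^ (n + l))) :=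
        fun n _ => normsq_sum (fun k => y * (b : ℝ) ^ (n + k)) K
      rw [sum_congr rfl h2, sum_comm]
      refine sum_congr rfl fun k _ => ?_
      rw [sum_comm]
    rw [h1]
    refine (sum_le_sum fun k hk => sum_le_sum fun l hl => hcos k hk l hl).trans (le_of_eq ?_)
    have h2 : ∀ k ∈ range K, ∑ l ∈ range K, ((if k = l then (N : ℝ) else 0) + η * N) =
        N + K * (η * N) := by
      intro k hk
      rw [sum_add_distrib, sum_ite_eq, if_pos hk, sum_const, card_range, nsmul_eq_mul]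
    rw [sum_congr rfl h2, sum_const, card_range, nsmul_eq_mul]
    ring
  have hl1 : ∑ n ∈ range N, ‖P n‖ ≤ N * √(K + K ^ 2 * η) := by
    have h1 : (∑ n ∈ range N, ‖P n‖) ^ 2 ≤ N * ∑ n ∈ range N, ‖P n‖ ^ 2 := by
      have := sq_sum_le_card_mul_sum_sq (s := range N) (f := fun n => ‖P n‖)
      rwa [card_range] at this
    have h2 : (∑ n ∈ range N, ‖P n‖) ^ 2 ≤ (N * √(K + K ^ 2 * η)) ^ 2 := by
      rw [mul_pow, Real.sq_sqrt (by positivity)]
      refine h1.trans ?_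
      have : (N : ℝ) * ∑ n ∈ range N, ‖P n‖ ^ 2 ≤ N * (N * (K + K ^ 2 * η)) :=
        mul_le_mul_of_nonneg_left hsq (Nat.cast_nonneg _)
      linarith [this, show (N : ℝ) * (N * (K + K ^ 2 * η)) = (N : ℝ) ^ 2 * (K + K ^ 2 * η) by ring]
    exact le_of_sq_le_sq h2 (by positivity)
  have hdec : (K : ℂ) * ∑ n ∈ range N, z n =
      ∑ k ∈ range K, (∑ n ∈ range N, z n - ∑ n ∈ range N, z (n + k)) + ∑ n ∈ range N, P n := by
    rw [sum_sub_distrib, sum_const, card_range, nsmul_eq_mul, hP, sum_comm (s := range N)]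
    ring
  have h1 : (K : ℝ) * ‖∑ n ∈ range N, z n‖ = ‖(K : ℂ) * ∑ n ∈ range N, z n‖ := by
    rw [norm_mul, Complex.norm_natCast]
  rw [h1, hdec]
  refine (norm_add_le _ _).trans ?_
  have h2 : ‖∑ k ∈ range K, (∑ n ∈ range N, z n - ∑ n ∈ range N, z (n + k))‖ ≤ K ^ 2 := by
    refine (norm_sum_le _ _).trans ((sum_le_sum fun k _ => shift_bound z hz1 N k).trans ?_)
    rw [← mul_sum]
    have h3 : (∑ k ∈ range K, (k : ℝ)) * 2 = K * (K - 1) := by
      have := Finset.sum_range_id_mul_two K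
      have h4 : ((∑ k ∈ range K, k : ℕ) : ℝ) * 2 = ((K * (K - 1) : ℕ) : ℝ) := by
        exact_mod_cast this
      rw [Nat.cast_mul, Nat.cast_sub hK] at h4
      push_cast at h4
      exact h4
    nlinarith
  have h3 : ‖∑ n ∈ range N, P n‖ ≤ N * √(K + K ^ 2 * η) := (norm_sum_le _ _).trans hl1
  linarith

section
variable {q : ℕ} (χ : DirichletCharacter ℂ q)

/-- exponential sums over orbits -/
lemma orbit_weyl (b : ℕ) (hb : 2 ≤ b) (hq : 1 ≤ q) (hχ : χ (-1) = -1) (w : ℝ) (hw : 0 < w) :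
    ∃ Q : ℕ, 1 ≤ Q ∧ ∃ N0 : ℕ, ∃ δ : ℝ, 0 < δ ∧ ∀ (y : ℝ) (N : ℕ), N0 ≤ N →
      (∀ m : ℕ, 1 ≤ m → m ≤ Q → ‖∑ n ∈ range N, Phi χ (m * (y * (b : ℝ) ^ n))‖ ≤ δ * N) →
      ‖∑ n ∈ range N, ee (y * (b : ℝ) ^ n)‖ ≤ w * N := by
  obtain ⟨K, hK⟩ := exists_nat_gt (max 1 (8 / w ^ 2))
  have hK1 : (1 : ℝ) < K := lt_of_le_of_lt (le_max_left _ _) hK
  have hK2 : 8 / w ^ 2 < K := lt_of_le_of_lt (le_max_right _ _) hK
  have hK1' : 1 ≤ K := by exact_mod_cast hK1.le
  have hK0 : (0 : ℝ) < K := by linarith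
  obtain ⟨M, hM, δ, hδ, H⟩ := cos_bound χ hq hχ (w ^ 2 / 8) (by positivity)
  obtain ⟨N0, hN0⟩ := exists_nat_gt (2 * K / w)
  refine ⟨M * b ^ K, Nat.mul_pos (by omega) (by positivity), N0, δ, hδ, fun y N hN hS => ?_⟩
  have h1 := vdc b hb K hK1' (w ^ 2 / 8) (by positivity) y N (fun g hg1 hg2 => by
    have := H (range N) (fun n => g * (y * (b : ℝ) ^ n)) (fun m hm hmM => by
      have h2 := hS (m * g) (Nat.mul_pos (by omega) (by omega)) (Nat.mul_le_mul hmM hg2)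
      rw [card_range]
      refine (le_of_eq ?_).trans h2
      congr 1
      refine sum_congr rfl fun n _ => ?_
      congr 1
      push_cast
      ring)
    rwa [card_range] at this)
  have hNR : 2 * K / w < N := lt_of_lt_of_le hN0 (by exact_mod_cast hN)
  rw [div_lt_iff₀ hw] at hNR
  have h2 : √((K : ℝ) + K ^ 2 * (w ^ 2 / 8)) ≤ K * (w / 2) := by
    apply Real.sqrt_le_iff.2
    refine ⟨by positivity, ?_⟩
    rw [div_lt_iff₀ (by positivity)] at hK2
    nlinarith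
  have hN' : (0 : ℝ) ≤ N := Nat.cast_nonneg _
  have h3 : K * ‖∑ n ∈ range N, ee (y * (b : ℝ) ^ n)‖ ≤ K * (w * N) := by
    refine h1.trans ?_
    have h4 : N * √((K : ℝ) + K ^ 2 * (w ^ 2 / 8)) ≤ N * (K * (w / 2)) :=
      mul_le_mul_of_nonneg_left h2 hN'
    nlinarith
  exact le_of_mul_le_mul_left h3 hK0

/-- **the criterion for orbits** -/
theorem master (b : ℕ) (hb : 2 ≤ b) (hq : 1 ≤ q) (hχ : χ (-1) = -1) (ε : ℝ) (hε : 0 < ε) :
    ∃ Q : ℕ, 1 ≤ Q ∧ ∃ N0 : ℕ, ∃ δ : ℝ, 0 < δ ∧ ∀ (x : ℝ) (N : ℕ), N0 ≤ N →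
      (∀ m : ℕ, 1 ≤ m → m ≤ Q → ‖∑ n ∈ range N, Phi χ (m * (x * (b : ℝ) ^ n))‖ ≤ δ * N) →
      ∀ s t : ℝ, 0 ≤ s → s < t → t ≤ 1 →
        |(vis (range N) (fun n => x * (b : ℝ) ^ n) s t : ℝ) - (t - s) * N| ≤ ε * N := by
  obtain ⟨K, hK⟩ := exists_nat_gt (max 1 (64 / ε ^ 2))
  have hK1 : (1 : ℝ) < K := lt_of_le_of_lt (le_max_left _ _) hK
  have hK2 : 64 / ε ^ 2 < K := lt_of_le_of_lt (le_max_right _ _) hK
  have hK0 : (0 : ℝ) < K := by linarith
  have hK1' : 1 ≤ K := by exact_mod_cast hK1.le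
  set w : ℝ := ε / (4 * K) with hw
  obtain ⟨M, hM, N0, δ, hδ, H⟩ := orbit_weyl χ b hb hq hχ w (by positivity)
  refine ⟨M * K, Nat.mul_pos (by omega) (by omega), N0, δ, hδ, fun x N hN hS s t h0 h1 h2 => ?_⟩
  have hT : ∀ h : ℕ, 1 ≤ h → h ≤ K → ‖∑ n ∈ range N, ee (h * (x * (b : ℝ) ^ n))‖ ≤ w * N := by
    intro h hh hhK
    have h3 := H (h * x) N hN fun m hm hmM => by
      have h4 := hS (m * h) (Nat.mul_pos (by omega) (by omega)) (Nat.mul_le_mul hmM hhK)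
      refine (le_of_eq ?_).trans h4
      congr 1
      refine sum_congr rfl fun n _ => ?_
      congr 1
      push_cast
      ring
    refine (le_of_eq ?_).trans h3
    congr 1
    refine sum_congr rfl fun n _ => ?_
    congr 1
    ring
  have h3 := disc_gen (range N) (fun n => x * (b : ℝ) ^ n) K hK1' _ hT s t h0 h1 h2
  rw [card_range] at h3
  refine h3.trans ?_
  have h3 : 2 * (K * (w * (N : ℝ))) = ε / 2 * N := by
    rw [hw]
    field_simp
    norm_num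
  have h4 : 2 * (2 * (N : ℝ) / √K) ≤ ε / 2 * N := by
    have h7 : 8 / ε ≤ √(K : ℝ) := by
      apply Real.le_sqrt_of_sq_le
      have : (8 / ε) ^ 2 = 64 / ε ^ 2 := by ring
      rw [this]
      exact hK2.le
    have hsK : 0 < √(K : ℝ) := Real.sqrt_pos.2 hK0
    have h8 : 2 * (2 * (N : ℝ) / √K) = 4 * N / √K := by ring
    rw [h8, div_le_iff₀ hsK]
    rw [div_le_iff₀ hε] at h7
    have h9 : (0 : ℝ) ≤ N := Nat.cast_nonneg _
    nlinarith
  linarith

end

end Pool.Agent.N915.HT
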