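import Pool.Agent.N915.HT.Test

/-! # Normality and halves, thirds, complementary words -/

set_option autoImplicit false

namespace Pool.Agent.N915.HT

open Finset Filter Topology
open Pool.Agent.N915.ML
open Pool.Agent.H534R3.UDist (UD Weyl ud_of_weyl)
open Pool.Agent.H534R3.Rota (ud_weyl)
open Pool.Agent.H807R2.Dav (ee norm_ee ee_add ee_zero ee_int ee_add_int ee_pow ee_eq)

lemma normal_iff_ud (b : ℕ) (hb : 2 ≤ b) (x : ℝ) : Normal b x ↔ UD fun n => x * (b : ℝ) ^ n :=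
  ⟨ud_of_normal b hb x, fun h k _ => count_tendsto b k (by omega) x h⟩

lemma ud_mul (b : ℕ) (x : ℝ) (h : UD fun n => x * (b : ℝ) ^ n) (m : ℕ) (hm : 1 ≤ m) :
    UD fun n => m * x * (b : ℝ) ^ n := by
  apply ud_of_weyl
  intro h' hh'
  have h1 := ud_weyl _ h (h' * m) (Nat.mul_pos (by omega) (by omega))
  refine h1.congr fun N => ?_
  congr 2
  refine sum_congr rfl fun n _ => ?_
  congr 1
  push_cast
  ring

lemma pos_of_not_dvd {b m : ℕ} (h : ¬ b ∣ m) : 1 ≤ m := by
  rcases Nat.eq_zero_or_pos m with h0 | h0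
  · subst h0
    exact absurd (dvd_zero b) h
  · exact h0

lemma vis_sum (u : ℕ → ℝ) (s t : ℝ) (N : ℕ) :
    (vis (range N) u s t : ℝ) =
      ∑ n ∈ range N, if s ≤ Int.fract (u n) ∧ Int.fract (u n) < t then (1 : ℝ) else 0 := by
  unfold vis
  rw [card_filter]
  push_cast
  rfl

/-- **normality from one interval** -/
theorem normal_iff_good (b : ℕ) (hb : 2 ≤ b) (s : ℝ) (h0 : 0 < s) (h1 : s ≤ 1 / 2) (hg : Good s)
    (x : ℝ) : Normal b x ↔ ∀ m : ℕ, ¬ b ∣ m →
      Tendsto (fun N : ℕ => (vis (range N) (fun n => (m : ℝ) * x * (b : ℝ) ^ n) s (1 - s) : ℝ) / N)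
        atTop (𝓝 (1 - s - s)) := by
  rw [normal_iff_ud b hb]
  constructor
  · intro h m hm
    exact ud_mul b x h m (pos_of_not_dvd hm) s (1 - s) h0.le (by linarith) (by linarith)
  · intro h
    obtain ⟨q, hq, χ, hχ, hG⟩ := hg
    refine ud_of_lim b hb hq χ hχ x fun m hm => ?_
    have h2 := reduce b hb x
      (fun y => if s ≤ Int.fract y ∧ Int.fract y < 1 - s then (1 : ℝ) else 0) 1
      (fun y => by split_ifs <;> simp) (1 - s - s) (fun m hm => by
        refine (h m hm).congr fun N => ?_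
        rw [vis_sum]) m hm
    have h3 := (h2.sub_const (1 - s - s)).abs
    rw [sub_self, abs_zero] at h3
    refine squeeze_zero' (Eventually.of_forall fun N => by positivity) ?_ h3
    filter_upwards [eventually_gt_atTop 0] with N hN
    have hNR : (0 : ℝ) < N := by exact_mod_cast hN
    have h4 := hG (range N) (fun n => (m : ℝ) * (x * (b : ℝ) ^ n))
    rw [card_range, vis_sum] at h4
    rw [div_le_iff₀ hNR, ← abs_of_pos hNR, ← abs_mul, abs_of_pos hNR, sub_mul,
      div_mul_cancel₀ _ hNR.ne']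
    refine h4.trans (le_of_eq ?_)
    congr 2
    refine sum_congr rfl fun n _ => ?_
    rw [mul_assoc]

/-! ## complementary words -/

section
variable {q : ℕ} (χ : DirichletCharacter ℂ q)

lemma cf_refl (hq : 1 ≤ q) (hχ : χ (-1) = -1) (j : ℕ) (hj : j < q) :
    cf χ ((q - j) % q) = -cf χ j := by
  have hq0 : (q : ℝ) ≠ 0 := by exact_mod_cast (by omega : q ≠ 0)
  have hqC : (q : ℂ) ≠ 0 := by exact_mod_cast (by omega : q ≠ 0)
  -- both sides have the same Fourier transform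
  have hneg : ∀ k : ℕ, k < q → χ (((q - k) % q : ℕ) : ZMod q) = -χ (k : ZMod q) := by
    intro k hk
    rw [ZMod.natCast_mod, Nat.cast_sub hk.le, ZMod.natCast_self, zero_sub,
      show -(k : ZMod q) = (-1) * (k : ZMod q) by ring, map_mul, hχ]
    ring
  have hbij : ∀ f : ℕ → ℂ, ∑ k ∈ range q, f ((q - k) % q) = ∑ k ∈ range q, f k := by
    intro f
    refine sum_nbij' (fun k => (q - k) % q) (fun k => (q - k) % q) ?_ ?_ ?_ ?_ ?_
    · intro a _
      exact mem_range.2 (Nat.mod_lt _ (by omega))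
    · intro a _
      exact mem_range.2 (Nat.mod_lt _ (by omega))
    · intro a ha
      rw [mem_range] at ha
      show (q - (q - a) % q) % q = a
      rcases Nat.eq_zero_or_pos a with h0 | h0
      · subst h0
        simp
      · rw [Nat.mod_eq_of_lt (show q - a < q by omega), show q - (q - a) = a by omega,
          Nat.mod_eq_of_lt ha]
    · intro a ha
      rw [mem_range] at ha
      show (q - (q - a) % q) % q = a
      rcases Nat.eq_zero_or_pos a with h0 | h0
      · subst h0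
        simp
      · rw [Nat.mod_eq_of_lt (show q - a < q by omega), show q - (q - a) = a by omega,
          Nat.mod_eq_of_lt ha]
    · intro a _
      rfl
  unfold cf
  rw [← mul_neg]
  congr 1
  rw [← hbij, ← sum_neg_distrib]
  refine sum_congr rfl fun k hk => ?_
  rw [mem_range] at hk
  rw [hneg k hk, neg_mul]
  congr 2
  -- the exponentials
  have hmod : ∀ a : ℕ, ((a % q : ℕ) : ℝ) = a - ((a / q : ℕ) : ℝ) * q := by
    intro a
    have := Nat.div_add_mod a q
    have h1 : a = a / q * q + a % q := by rw [mul_comm]; omega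
    have h2 : (a : ℝ) = ((a / q : ℕ) : ℝ) * q + ((a % q : ℕ) : ℝ) := by exact_mod_cast h1
    linarith
  rw [hmod (q - j), hmod (q - k), Nat.cast_sub hj.le, Nat.cast_sub hk.le]
  set A : ℕ := (q - j) / q with hA
  set B : ℕ := (q - k) / q with hB
  have e : -((((q : ℝ) - j) - (A : ℝ) * q) * (((q : ℝ) - k) - (B : ℝ) * q) / q) =
      -((j : ℝ) * k / q) +
        ((-(((q : ℤ) - j - A * q) * (1 - B)) + (1 - A) * k : ℤ) : ℝ) := by
    push_cast
    field_simp
    ring
  rw [e, ee_add_int]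

lemma VV_refl (hq : 2 ≤ q) (hχ : χ (-1) = -1) (a : ℕ) (ha : a < q) :
    VV χ (q - 1 - a) = VV χ a := by
  have hqC : (q : ℂ) ≠ 0 := by exact_mod_cast (by omega : q ≠ 0)
  have hbij : ∀ f : ℕ → ℂ, ∑ k ∈ range q, f ((q - k) % q) = ∑ k ∈ range q, f k := by
    intro f
    refine sum_nbij' (fun k => (q - k) % q) (fun k => (q - k) % q) ?_ ?_ ?_ ?_ ?_
    · intro a _
      exact mem_range.2 (Nat.mod_lt _ (by omega))
    · intro a _
      exact mem_range.2 (Nat.mod_lt _ (by omega))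
    · intro a ha
      rw [mem_range] at ha
      show (q - (q - a) % q) % q = a
      rcases Nat.eq_zero_or_pos a with h0 | h0
      · subst h0
        simp
      · rw [Nat.mod_eq_of_lt (show q - a < q by omega), show q - (q - a) = a by omega,
          Nat.mod_eq_of_lt ha]
    · intro a ha
      rw [mem_range] at ha
      show (q - (q - a) % q) % q = a
      rcases Nat.eq_zero_or_pos a with h0 | h0
      · subst h0
        simp
      · rw [Nat.mod_eq_of_lt (show q - a < q by omega), show q - (q - a) = a by omega,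
          Nat.mod_eq_of_lt ha]
    · intro a _
      rfl
  have h1 : VV χ (q - 1 - a) = ∑ j ∈ range q,
      (cf χ j * ((((a + j) % q : ℕ) : ℂ) / q) - cf χ j * (((q : ℂ) - 1) / q)) := by
    unfold VV
    rw [← hbij]
    refine sum_congr rfl fun j hj => ?_
    rw [mem_range] at hj
    rw [cf_refl χ (by omega) hχ j hj]
    have h2 : ((q - 1 - a) + (q - j) % q) % q = q - 1 - (a + j) % q := by
      have h3 : ((q - 1 - a) + (q - j) % q) % q = ((q - 1 - a) + (q - j)) % q := by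
        rw [Nat.add_mod_mod]
      rw [h3]
      rcases Nat.lt_or_ge (a + j) q with h4 | h4
      · rw [Nat.mod_eq_of_lt h4, show (q - 1 - a) + (q - j) = (q - 1 - (a + j)) + q by omega,
          Nat.add_mod_right, Nat.mod_eq_of_lt (by omega)]
      · rw [Nat.mod_eq_sub_mod h4, Nat.mod_eq_of_lt (show a + j - q < q by omega),
          show (q - 1 - a) + (q - j) = q - 1 - (a + j - q) by omega, Nat.mod_eq_of_lt (by omega)]
    rw [h2]
    have h3 : (a + j) % q ≤ q - 1 := by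
      have := Nat.mod_lt (a + j) (show 0 < q by omega)
      omega
    rw [Nat.cast_sub h3, Nat.cast_sub (show 1 ≤ q by omega)]
    push_cast
    ring
  rw [h1, sum_sub_distrib, ← sum_mul, cf_sum χ hq, zero_mul, sub_zero]
  rfl

lemma Phi_pairs (hq : 2 ≤ q) (hχ : χ (-1) = -1) {ι : Type*} (S : Finset ι) (u : ι → ℝ) :
    ‖∑ n ∈ S, Phi χ (u n)‖ ≤ AA χ * ∑ a ∈ range q,
      |((vis S u ((a : ℝ) / q) (((a : ℝ) + 1) / q) : ℝ) +
        vis S u (((q - 1 - a : ℕ) : ℝ) / q) ((((q - 1 - a : ℕ) : ℝ) + 1) / q)) - 2 * S.card / q| := by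
  set v : ℕ → ℂ := fun a => (vis S u ((a : ℝ) / q) (((a : ℝ) + 1) / q) : ℂ) with hv
  have h1 : ∑ n ∈ S, Phi χ (u n) = ∑ a ∈ range q, VV χ a * (v a - S.card / q) := Phi_sum χ hq S u
  have h2 : ∑ a ∈ range q, VV χ a * (v a - S.card / q) =
      ∑ a ∈ range q, VV χ a * (v (q - 1 - a) - S.card / q) := by
    rw [← sum_range_reflect]
    refine sum_congr rfl fun a ha => ?_
    rw [mem_range] at ha
    rw [VV_refl χ hq hχ a ha]
  have h3 : ∑ n ∈ S, Phi χ (u n) = (1 / 2) * ∑ a ∈ range q, VV χ a *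
      ((v a + v (q - 1 - a)) - 2 * S.card / q) := by
    have h4 : ∑ a ∈ range q, VV χ a * ((v a + v (q - 1 - a)) - 2 * S.card / q) =
        ∑ a ∈ range q, VV χ a * (v a - S.card / q) +
          ∑ a ∈ range q, VV χ a * (v (q - 1 - a) - S.card / q) := by
      rw [← sum_add_distrib]
      refine sum_congr rfl fun a _ => ?_
      ring
    rw [h4, ← h2, h1]
    ring
  rw [h3, norm_mul]
  have h5 : ‖(1 / 2 : ℂ)‖ ≤ 1 := by
    rw [norm_div]
    norm_num
  calc _ ≤ 1 * ‖∑ a ∈ range q, VV χ a * ((v a + v (q - 1 - a)) - 2 * S.card / q)‖ :=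
        mul_le_mul_of_nonneg_right h5 (norm_nonneg _)
    _ ≤ _ := by
        rw [one_mul, mul_sum]
        refine (norm_sum_le _ _).trans (sum_le_sum fun a _ => ?_)
        rw [norm_mul]
        apply mul_le_mul (norm_VV χ (by omega) a) _ (norm_nonneg _) (AA_nonneg χ)
        refine le_of_eq ?_
        rw [← Real.norm_eq_abs, ← Complex.norm_real]
        congr 1
        simp only [hv]
        push_cast
        ring

end

/-- the complementary word -/
def comp (b : ℕ) (w : ℕ → ℤ) : ℕ → ℤ := fun j => b - 1 - w j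

lemma comp_isWord (b k : ℕ) (w : ℕ → ℤ) (h : IsWord b k w) : IsWord b k (comp b w) := by
  intro j hj
  have := h j hj
  unfold comp
  omega

lemma val_comp (b : ℕ) (w : ℕ → ℤ) (k : ℕ) : val b (comp b w) k = (b : ℤ) ^ k - 1 - val b w k := by
  induction k with
  | zero =>
    show (0 : ℤ) = (b : ℤ) ^ 0 - 1 - 0
    simp
  | succ k ih =>
    show val b (comp b w) k * b + comp b w k = (b : ℤ) ^ (k + 1) - 1 - (val b w k * b + w k)
    rw [ih]
    unfold comp
    ring

/-- the total frequency of a word and of its complement -/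
def PFreq (b k : ℕ) (x : ℝ) : Prop := ∀ w : ℕ → ℤ, IsWord b k w →
  Tendsto (fun N : ℕ => ((count b x k w N + count b x k (comp b w) N : ℕ) : ℝ) / (N : ℝ)) atTop
    (𝓝 (2 / (b : ℝ) ^ k))

theorem normal_iff_pairs (b k : ℕ) (hb : 2 ≤ b) (hbk : 3 ≤ b ^ k) (x : ℝ) :
    Normal b x ↔ ∀ m : ℕ, ¬ b ∣ m → PFreq b k (m * x) := by
  constructor
  · intro h m hm w hw
    rw [normal_iff_ud b hb] at h
    have h1 := count_tendsto b k (by omega) (m * x) (ud_mul b x h m (pos_of_not_dvd hm))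
    have h2 := (h1 w hw).add (h1 (comp b w) (comp_isWord b k w hw))
    have e : 1 / (b : ℝ) ^ k + 1 / (b : ℝ) ^ k = 2 / (b : ℝ) ^ k := by ring
    rw [e] at h2
    refine h2.congr fun N => ?_
    push_cast
    ring
  · intro h
    rw [normal_iff_ud b hb]
    obtain ⟨B, hB⟩ : ∃ B, B = b ^ k := ⟨_, rfl⟩
    rw [← hB] at hbk
    obtain ⟨χ, hχ⟩ := exists_odd B hbk
    have hBR : (0 : ℝ) < B := by positivity
    refine ud_of_lim b hb (by omega) χ hχ x fun m hm => ?_
    -- the pairs of cells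
    have hcell : ∀ a ∈ range B, Tendsto (fun N : ℕ => |((vis (range N)
          (fun n => (m : ℝ) * (x * (b : ℝ) ^ n)) ((a : ℝ) / B) (((a : ℝ) + 1) / B) : ℝ) +
        vis (range N) (fun n => (m : ℝ) * (x * (b : ℝ) ^ n)) (((B - 1 - a : ℕ) : ℝ) / B)
          ((((B - 1 - a : ℕ) : ℝ) + 1) / B)) / N - 2 / B|) atTop (𝓝 0) := by
      intro a ha
      rw [mem_range] at ha
      obtain ⟨w, hw, hval⟩ := exists_word b (by omega) k a (by rw [← hB]; exact ha)
      have hval2 : val b (comp b w) k = ((B - 1 - a : ℕ) : ℤ) := by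
        rw [val_comp, hval, hB]
        rw [Nat.cast_sub (by omega), Nat.cast_sub (by omega)]
        push_cast
        ring
      have h2 := reduce b hb x
        (fun y => (if (a : ℝ) / B ≤ Int.fract y ∧ Int.fract y < ((a : ℝ) + 1) / B
          then (1 : ℝ) else 0) + (if ((B - 1 - a : ℕ) : ℝ) / B ≤ Int.fract y ∧
            Int.fract y < (((B - 1 - a : ℕ) : ℝ) + 1) / B then (1 : ℝ) else 0)) 2
        (fun y => by split_ifs <;> norm_num) (2 / B) (fun m hm => by
          have h3 := h m hm w hw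
          rw [show (b : ℝ) ^ k = (B : ℝ) by rw [hB]; push_cast; rfl] at h3
          refine h3.congr fun N => ?_
          rw [count_eq b (by omega) (m * x) k w hw N,
            count_eq b (by omega) (m * x) k (comp b w) (comp_isWord b k w hw) N, hval, hval2]
          push_cast
          rw [vis_sum, vis_sum, ← sum_add_distrib]
          have hc : ((b : ℝ) ^ k) = (B : ℝ) := by rw [hB]; push_cast; rfl
          simp only [hc]) m hm
      have h3 := (h2.sub_const (2 / (B : ℝ))).abs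
      rw [sub_self, abs_zero] at h3
      refine h3.congr fun N => ?_
      rw [vis_sum, vis_sum, ← sum_add_distrib]
      congr 3
      refine sum_congr rfl fun n _ => ?_
      rw [mul_assoc]
    have hsum := (tendsto_finsetSum (range B) hcell).const_mul (AA χ)
    rw [sum_const_zero, mul_zero] at hsum
    refine squeeze_zero' (Eventually.of_forall fun N => by positivity) ?_ hsum
    filter_upwards [eventually_gt_atTop 0] with N hN
    have hNR : (0 : ℝ) < N := by exact_mod_cast hN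
    have h4 := Phi_pairs χ (by omega) hχ (range N) (fun n => (m : ℝ) * (x * (b : ℝ) ^ n))
    rw [card_range] at h4
    rw [div_le_iff₀ hNR]
    refine h4.trans (le_of_eq ?_)
    rw [mul_assoc]
    congr 1
    rw [sum_mul]
    refine sum_congr rfl fun a _ => ?_
    rw [← abs_of_pos hNR, ← abs_mul, abs_of_pos hNR, sub_mul, div_mul_cancel₀ _ hNR.ne']
    congr 1
    ring

/-! ## the tests in terms of the digits -/

lemma fract_lt_iff (B : ℕ) (hB : 1 ≤ B) (D p : ℕ) (hD : 1 ≤ D) (hdvd : D ∣ p * B) (z : ℝ) (v : ℤ)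
    (hv : ⌊z * B⌋ = B * ⌊z⌋ + v) : Int.fract z < (p : ℝ) / D ↔ (D : ℤ) * v < p * B := by
  have hBR : (0 : ℝ) < B := by exact_mod_cast hB
  have hDR : (0 : ℝ) < D := by exact_mod_cast hD
  have h1 := Int.floor_le (z * B)
  have h2 := Int.lt_floor_add_one (z * B)
  rw [hv] at h1 h2
  push_cast at h1 h2
  have e : Int.fract z = z - ⌊z⌋ := rfl
  have h3 : (v : ℝ) ≤ Int.fract z * B := by rw [e]; linarith
  have h4 : Int.fract z * B < v + 1 := by rw [e]; linarith
  rw [lt_div_iff₀ hDR]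
  constructor
  · intro h
    have h5 : Int.fract z * D * B < p * B := mul_lt_mul_of_pos_right h hBR
    have h6 : (D : ℝ) * v < p * B := by nlinarith
    exact_mod_cast h6
  · intro h
    obtain ⟨c, hc⟩ := hdvd
    have hc' : (p : ℤ) * B = D * c := by exact_mod_cast hc
    rw [hc'] at h
    have h5 : v < c := lt_of_mul_lt_mul_left h (by positivity)
    have h6 : (v : ℝ) + 1 ≤ c := by exact_mod_cast h5
    have h7 : (p : ℝ) * B = D * c := by exact_mod_cast hc
    have h8 : Int.fract z * D * B < p * B := by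
      rw [h7]
      have : Int.fract z * B < c := by linarith
      nlinarith
    exact lt_of_mul_lt_mul_right h8 hBR.le

lemma digit_single (b : ℕ) (hb : 1 ≤ b) (y : ℝ) (n : ℕ) :
    ⌊y * (b : ℝ) ^ n * b⌋ = (b : ℤ) * ⌊y * (b : ℝ) ^ n⌋ + digit b y (n + 1) := by
  have h := floor_mul b hb (y * (b : ℝ) ^ n)
  unfold digit
  rw [pow_succ, ← mul_assoc]
  exact h

lemma digit_pair (b : ℕ) (hb : 1 ≤ b) (y : ℝ) (n : ℕ) :
    ⌊y * (b : ℝ) ^ n * ((b ^ 2 : ℕ) : ℝ)⌋ = ((b ^ 2 : ℕ) : ℤ) * ⌊y * (b : ℝ) ^ n⌋ +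
      (b * digit b y (n + 1) + digit b y (n + 1 + 1)) := by
  have h1 := digit_single b hb y n
  have h2 := digit_single b hb y (n + 1)
  have e1 : y * (b : ℝ) ^ (n + 1) * b = y * (b : ℝ) ^ n * ((b ^ 2 : ℕ) : ℝ) := by
    push_cast
    ring
  have e2 : y * (b : ℝ) ^ (n + 1) = y * (b : ℝ) ^ n * b := by ring
  rw [e1, e2, h1] at h2
  rw [h2]
  push_cast
  ring

open Classical in
lemma card_vis (b : ℕ) (y : ℝ) (P : ℕ → Prop) (s t : ℝ)
    (h : ∀ n : ℕ, P (n + 1) ↔ s ≤ Int.fract (y * (b : ℝ) ^ n) ∧ Int.fract (y * (b : ℝ) ^ n) < t)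
    (N : ℕ) :
    ((Icc 1 N).filter P).card = vis (range N) (fun n => y * (b : ℝ) ^ n) s t := by
  unfold vis
  refine (card_bij (fun n _ => n + 1) ?_ ?_ ?_).symm
  · intro n hn
    rw [mem_filter, mem_range] at hn
    rw [mem_filter, mem_Icc]
    exact ⟨⟨by omega, by omega⟩, (h n).2 hn.2⟩
  · intro a _ c _ h1
    simpa using h1
  · intro i hi
    rw [mem_filter, mem_Icc] at hi
    obtain ⟨⟨h1, h2⟩, h3⟩ := hi
    refine ⟨i - 1, ?_, by omega⟩
    rw [mem_filter, mem_range]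
    refine ⟨by omega, ?_⟩
    rw [← h (i - 1)]
    rwa [show i - 1 + 1 = i by omega]

lemma pair_test (b : ℕ) (hb : 2 ≤ b) (h2 : 2 ∣ b) (y : ℝ) (n : ℕ) :
    ((b : ℤ) ^ 2 ≤ 4 * (b * digit b y (n + 1) + digit b y (n + 1 + 1)) ∧
      4 * (b * digit b y (n + 1) + digit b y (n + 1 + 1)) < 3 * (b : ℤ) ^ 2) ↔
    (1 / 4 : ℝ) ≤ Int.fract (y * (b : ℝ) ^ n) ∧ Int.fract (y * (b : ℝ) ^ n) < 1 - 1 / 4 := by
  obtain ⟨c, hc⟩ := h2
  have hd : 4 ∣ b ^ 2 := ⟨c ^ 2, by rw [hc]; ring⟩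
  have h3 := fract_lt_iff (b ^ 2) (Nat.one_le_pow _ _ (by omega)) 4 1 (by norm_num)
    (by rw [one_mul]; exact hd) (y * (b : ℝ) ^ n) _ (digit_pair b (by omega) y n)
  have h4 := fract_lt_iff (b ^ 2) (Nat.one_le_pow _ _ (by omega)) 4 3 (by norm_num)
    (hd.mul_left 3) (y * (b : ℝ) ^ n) _ (digit_pair b (by omega) y n)
  push_cast at h3 h4
  rw [← not_lt (a := Int.fract (y * (b : ℝ) ^ n)), h3, show (1 - 1 / 4 : ℝ) = 3 / 4 by norm_num, h4,
    not_lt, one_mul]

lemma quarter_test (b : ℕ) (hb : 2 ≤ b) (hd : 4 ∣ b) (y : ℝ) (n : ℕ) :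
    ((b : ℤ) ≤ 4 * digit b y (n + 1) ∧ 4 * digit b y (n + 1) < 3 * (b : ℤ)) ↔
    (1 / 4 : ℝ) ≤ Int.fract (y * (b : ℝ) ^ n) ∧ Int.fract (y * (b : ℝ) ^ n) < 1 - 1 / 4 := by
  have h3 := fract_lt_iff b (by omega) 4 1 (by norm_num)
    (by rw [one_mul]; exact hd) (y * (b : ℝ) ^ n) _ (digit_single b (by omega) y n)
  have h4 := fract_lt_iff b (by omega) 4 3 (by norm_num)
    (hd.mul_left 3) (y * (b : ℝ) ^ n) _ (digit_single b (by omega) y n)
  push_cast at h3 h4
  rw [← not_lt (a := Int.fract (y * (b : ℝ) ^ n)), h3, show (1 - 1 / 4 : ℝ) = 3 / 4 by norm_num, h4,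
    not_lt, one_mul]

lemma third_test (b : ℕ) (hb : 2 ≤ b) (hd : 3 ∣ b) (y : ℝ) (n : ℕ) :
    ((b : ℤ) ≤ 3 * digit b y (n + 1) ∧ 3 * digit b y (n + 1) < 2 * (b : ℤ)) ↔
    (1 / 3 : ℝ) ≤ Int.fract (y * (b : ℝ) ^ n) ∧ Int.fract (y * (b : ℝ) ^ n) < 1 - 1 / 3 := by
  have h3 := fract_lt_iff b (by omega) 3 1 (by norm_num)
    (by rw [one_mul]; exact hd) (y * (b : ℝ) ^ n) _ (digit_single b (by omega) y n)
  have h4 := fract_lt_iff b (by omega) 3 2 (by norm_num)
    (hd.mul_left 2) (y * (b : ℝ) ^ n) _ (digit_single b (by omega) y n)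
  push_cast at h3 h4
  rw [← not_lt (a := Int.fract (y * (b : ℝ) ^ n)), h3, show (1 - 1 / 3 : ℝ) = 2 / 3 by norm_num, h4,
    not_lt, one_mul]

open Classical in
/-- the set of the positive integers with the property `p` has the density `α` -/
noncomputable def HasDensity (p : ℕ → Prop) (α : ℝ) : Prop :=
  Tendsto (fun N : ℕ => (((Icc 1 N).filter p).card : ℝ) / (N : ℝ)) atTop (𝓝 α)

lemma density_iff (b : ℕ) (y : ℝ) (P : ℕ → Prop) (s t α : ℝ)
    (h : ∀ n : ℕ, P (n + 1) ↔ s ≤ Int.fract (y * (b : ℝ) ^ n) ∧ Int.fract (y * (b : ℝ) ^ n) < t) :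
    HasDensity P α ↔ Tendsto (fun N : ℕ => (vis (range N) (fun n => y * (b : ℝ) ^ n) s t : ℝ) / N)
      atTop (𝓝 α) := by
  unfold HasDensity
  simp only [card_vis b y P s t h]

theorem normal_iff_test (b : ℕ) (hb : 2 ≤ b) (s : ℝ) (h0 : 0 < s) (h1 : s ≤ 1 / 2) (hg : Good s)
    (α : ℝ) (hα : α = 1 - s - s) (P : ℝ → ℕ → Prop)
    (h : ∀ (y : ℝ) (n : ℕ), P y (n + 1) ↔
      s ≤ Int.fract (y * (b : ℝ) ^ n) ∧ Int.fract (y * (b : ℝ) ^ n) < 1 - s) (x : ℝ) :
    Normal b x ↔ ∀ m : ℕ, ¬ b ∣ m → HasDensity (P (m * x)) α := by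
  rw [normal_iff_good b hb s h0 h1 hg x]
  refine forall_congr' fun m => forall_congr' fun _ => ?_
  rw [density_iff b (m * x) (P (m * x)) s (1 - s) α (h (m * x)), hα]

lemma digit_bounds (b : ℕ) (hb : 1 ≤ b) (y : ℝ) (i : ℕ) : 0 ≤ digit b y i ∧ digit b y i < b := by
  have hbZ : (0 : ℤ) < b := by exact_mod_cast hb
  exact ⟨Int.emod_nonneg _ hbZ.ne', Int.emod_lt_of_pos _ hbZ⟩

/-- the finite form for words -/
theorem stage_words (b : ℕ) (hb : 2 ≤ b) (ε : ℝ) (hε : 0 < ε) :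
    ∃ Q : ℕ, 1 ≤ Q ∧ ∃ δ : ℝ, 0 < δ ∧ ∀ (x : ℝ) (N : ℕ),
      ((∀ m : ℕ, 1 ≤ m → m ≤ Q →
        |(vis (range N) (fun n => (m : ℝ) * x * (b : ℝ) ^ n) (1 / 4) (3 / 4) : ℝ) - N / 2| ≤
          δ * N) ∨
      (∀ m : ℕ, 1 ≤ m → m ≤ Q →
        |(vis (range N) (fun n => (m : ℝ) * x * (b : ℝ) ^ n) (1 / 3) (2 / 3) : ℝ) - N / 3| ≤
          δ * N)) →
      ∀ (l : ℕ) (w : ℕ → ℤ), IsWord b l w →
        |(count b x l w N : ℝ) - N / (b : ℝ) ^ l| ≤ ε * N := by
  obtain ⟨Q1, hQ1, δ1, hδ1, H1⟩ := one_interval b hb (1 / 4) (by norm_num) (by norm_num)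
    good_quarter ε hε
  obtain ⟨Q2, hQ2, δ2, hδ2, H2⟩ := one_interval b hb (1 / 3) (by norm_num) (by norm_num)
    good_third ε hε
  refine ⟨max Q1 Q2, hQ1.trans (le_max_left _ _), min δ1 δ2, lt_min hδ1 hδ2,
    fun x N hS l w hw => ?_⟩
  have hNR : (0 : ℝ) ≤ N := Nat.cast_nonneg _
  have key : ∀ α β : ℝ, 0 ≤ α → α < β → β ≤ 1 →
      |(vis (range N) (fun n => x * (b : ℝ) ^ n) α β : ℝ) - (β - α) * N| ≤ ε * N := by
    rcases hS with hS | hS
    · refine H1 x N fun m hm hmQ => ?_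
      have h1 := hS m hm (hmQ.trans (le_max_left _ _))
      have e : (fun n : ℕ => (m : ℝ) * (x * (b : ℝ) ^ n)) = fun n => (m : ℝ) * x * (b : ℝ) ^ n := by
        funext n
        ring
      rw [e, show (1 - 1 / 4 : ℝ) = 3 / 4 by norm_num,
        show (3 / 4 - 1 / 4 : ℝ) * N = N / 2 by ring]
      exact h1.trans (mul_le_mul_of_nonneg_right (min_le_left _ _) hNR)
    · refine H2 x N fun m hm hmQ => ?_
      have h1 := hS m hm (hmQ.trans (le_max_right _ _))
      have e : (fun n : ℕ => (m : ℝ) * (x * (b : ℝ) ^ n)) = fun n => (m : ℝ) * x * (b : ℝ) ^ n := by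
        funext n
        ring
      rw [e, show (1 - 1 / 3 : ℝ) = 2 / 3 by norm_num,
        show (2 / 3 - 1 / 3 : ℝ) * N = N / 3 by ring]
      exact h1.trans (mul_le_mul_of_nonneg_right (min_le_right _ _) hNR)
  have hv := val_bounds b w l hw
  have hP : (0 : ℝ) < ((b ^ l : ℕ) : ℝ) := by positivity
  have h2 := key ((val b w l : ℝ) / (b ^ l : ℕ)) (((val b w l : ℝ) + 1) / (b ^ l : ℕ))
    (div_nonneg (by exact_mod_cast hv.1) hP.le)
    (div_lt_div_of_pos_right (by linarith) hP) (by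
      rw [div_le_one hP]
      have : val b w l + 1 ≤ (b : ℤ) ^ l := hv.2
      exact_mod_cast this)
  rw [← count_eq b (by omega) x l w hw N] at h2
  have e : (((val b w l : ℝ) + 1) / (b ^ l : ℕ) - (val b w l : ℝ) / (b ^ l : ℕ)) * N =
      N / (b : ℝ) ^ l := by
    push_cast
    ring
  rw [e] at h2
  exact h2

end Pool.Agent.N915.HT
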