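import Pool.Agent.N915.HT.Cos

/-! # The tests: halves, thirds, pairs of complementary words -/

set_option autoImplicit false

namespace Pool.Agent.N915.HT

open Finset Filter Topology
open Pool.Agent.N915.ML
open Pool.Agent.H534R3.UDist (UD Weyl ud_of_weyl)
open Pool.Agent.H534R3.Rota (ud_weyl)
open Pool.Agent.H807R2.Dav (ee norm_ee ee_add ee_zero ee_int ee_add_int ee_pow ee_eq)

lemma psi_diff (s : ℝ) (h0 : 0 < s) (h1 : s ≤ 1 / 2) (y : ℝ) :
    psi (y + (1 - s)) - psi (y + s) =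
      (1 - s - s) - (if s ≤ Int.fract y ∧ Int.fract y < 1 - s then 1 else 0) := by
  have e : y = Int.fract y + (⌊y⌋ : ℤ) := (Int.fract_add_floor y).symm
  set f := Int.fract y with hf
  have f0 : 0 ≤ f := Int.fract_nonneg y
  have f1 : f < 1 := Int.fract_lt_one y
  have e1 : psi (y + (1 - s)) = psi (f + (1 - s)) := by
    rw [show y + (1 - s) = (f + (1 - s)) + (⌊y⌋ : ℤ) by linarith, psi_add_int]
  have e2 : psi (y + s) = psi (f + s) := by
    rw [show y + s = (f + s) + (⌊y⌋ : ℤ) by linarith, psi_add_int]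
  rw [e1, e2]
  rcases lt_or_ge f s with h | h
  · rw [if_neg (fun hh => absurd hh.1 (not_le.2 h)),
      SG.psi_of (f + (1 - s)) 0 (f + (1 - s)) (by linarith) (by linarith) (by push_cast; ring),
      SG.psi_of (f + s) 0 (f + s) (by linarith) (by linarith) (by push_cast; ring)]
    ring
  · rcases lt_or_ge f (1 - s) with g | g
    · rw [if_pos ⟨h, g⟩,
        SG.psi_of (f + (1 - s)) 1 (f - s) (by linarith) (by linarith) (by push_cast; ring),
        SG.psi_of (f + s) 0 (f + s) (by linarith) (by linarith) (by push_cast; ring)]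
      ring
    · rw [if_neg (fun hh => absurd hh.2 (not_lt.2 g)),
        SG.psi_of (f + (1 - s)) 1 (f - s) (by linarith) (by linarith) (by push_cast; ring),
        SG.psi_of (f + s) 1 (f + s - 1) (by linarith) (by linarith) (by push_cast; ring)]
      ring

/-- the interval `[s, 1 - s)` is a test -/
def Good (s : ℝ) : Prop := ∃ q : ℕ, 1 ≤ q ∧ ∃ χ : DirichletCharacter ℂ q, χ (-1) = -1 ∧
  ∀ {ι : Type} (S : Finset ι) (u : ι → ℝ),
    ‖∑ n ∈ S, Phi χ (u n)‖ ≤ |(vis S u s (1 - s) : ℝ) - (1 - s - s) * S.card|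

lemma good_of {q : ℕ} (hq : 1 ≤ q) (χ : DirichletCharacter ℂ q) (hχ : χ (-1) = -1) (s : ℝ)
    (h0 : 0 < s) (h1 : s ≤ 1 / 2) (c : ℂ) (hc : ‖c‖ ≤ 1)
    (h : ∀ y : ℝ, Phi χ y = c * ((psi (y + (1 - s)) - psi (y + s) : ℝ) : ℂ)) : Good s := by
  refine ⟨q, hq, χ, hχ, fun S u => ?_⟩
  have e : ∑ n ∈ S, Phi χ (u n) =
      c * (((1 - s - s) * S.card - (vis S u s (1 - s) : ℝ) : ℝ) : ℂ) := by
    have e1 : ∀ n ∈ S, Phi χ (u n) = c * (((1 - s - s) -
        (if s ≤ Int.fract (u n) ∧ Int.fract (u n) < 1 - s then 1 else 0) : ℝ) : ℂ) := by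
      intro n _
      rw [h, psi_diff s h0 h1]
    rw [sum_congr rfl e1, ← mul_sum, ← Complex.ofReal_sum, sum_sub_distrib, sum_const, nsmul_eq_mul]
    unfold vis
    rw [card_filter]
    push_cast
    ring_nf
  rw [e, norm_mul, Complex.norm_real, Real.norm_eq_abs, abs_sub_comm]
  calc _ ≤ 1 * |(vis S u s (1 - s) : ℝ) - (1 - s - s) * S.card| :=
        mul_le_mul_of_nonneg_right hc (abs_nonneg _)
    _ = _ := one_mul _

lemma good_quarter : Good (1 / 4) := by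
  refine good_of (q := 4) (by norm_num) SG.chi SG.chi_neg_one (1 / 4) (by norm_num) (by norm_num)
    (Complex.I / 2) ?_ fun y => ?_
  · rw [norm_div, Complex.norm_I]
    norm_num
  · rw [SG.Phi_chi]
    norm_num

lemma good_third : Good (1 / 3) := by
  obtain ⟨χ, hχ⟩ := exists_odd 3 le_rfl
  have c0 : χ ((0 : ℕ) : ZMod 3) = 0 := by
    rw [Nat.cast_zero]
    exact MulChar.map_zero χ
  have c1 : χ ((1 : ℕ) : ZMod 3) = 1 := by
    rw [Nat.cast_one, map_one]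
  have c2 : χ ((2 : ℕ) : ZMod 3) = -1 := by
    rw [show ((2 : ℕ) : ZMod 3) = -1 by decide, hχ]
  have cf0 : cf χ 0 = 0 := by
    unfold cf
    rw [sum_range_succ, sum_range_succ, sum_range_one, c0, c1, c2]
    simp [ee_zero]
  have hee : ee (-(4 / 3 : ℝ)) = ee (-(1 / 3 : ℝ)) := by
    rw [show (-(1 / 3) : ℝ) = -(4 / 3) + ((1 : ℤ) : ℝ) by norm_num, ee_add_int]
  have cf1 : cf χ 1 = -((1 / 3) * (ee (-(2 / 3 : ℝ)) - ee (-(1 / 3 : ℝ)))) := by
    unfold cf
    rw [sum_range_succ, sum_range_succ, sum_range_one, c0, c1, c2]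
    push_cast
    norm_num
    ring
  have cf2 : cf χ 2 = (1 / 3) * (ee (-(2 / 3 : ℝ)) - ee (-(1 / 3 : ℝ))) := by
    unfold cf
    rw [sum_range_succ, sum_range_succ, sum_range_one, c0, c1, c2]
    have e1 : ee (-(((2 : ℕ) : ℝ) * ((1 : ℕ) : ℝ) / ((3 : ℕ) : ℝ))) = ee (-(2 / 3 : ℝ)) := by
      norm_num
    have e2 : ee (-(((2 : ℕ) : ℝ) * ((2 : ℕ) : ℝ) / ((3 : ℕ) : ℝ))) = ee (-(1 / 3 : ℝ)) := by
      rw [← hee]
      norm_num
    rw [e1, e2]
    push_cast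
    ring
  refine good_of (q := 3) (by norm_num) χ hχ (1 / 3) (by norm_num) (by norm_num)
    ((1 / 3) * (ee (-(2 / 3 : ℝ)) - ee (-(1 / 3 : ℝ)))) ?_ fun y => ?_
  · rw [norm_mul]
    have h1 := norm_sub_le (ee (-(2 / 3 : ℝ))) (ee (-(1 / 3 : ℝ)))
    rw [norm_ee, norm_ee] at h1
    have h2 : ‖(1 / 3 : ℂ)‖ = 1 / 3 := by
      rw [norm_div]
      norm_num
    rw [h2]
    linarith
  · unfold Phi
    rw [sum_range_succ, sum_range_succ, sum_range_one, cf0, cf1, cf2]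
    have e1 : y + (1 - 1 / 3 : ℝ) = y + ((2 : ℕ) : ℝ) / ((3 : ℕ) : ℝ) := by norm_num
    have e2 : y + (1 / 3 : ℝ) = y + ((1 : ℕ) : ℝ) / ((3 : ℕ) : ℝ) := by norm_num
    rw [e1, e2]
    push_cast
    ring

/-- all multiples near integers -/
lemma small_visits (b : ℕ) (hb : 2 ≤ b) (s : ℝ) (h0 : 1 / 8 < s) (N0 : ℕ) (x : ℝ) :
    ∃ m : ℕ, 1 ≤ m ∧ m ≤ 8 * b ^ N0 ∧ ∀ N ≤ N0,
      vis (range N) (fun n => (m : ℝ) * (x * (b : ℝ) ^ n)) s (1 - s) = 0 := by
  obtain ⟨m, hm1, hm2, hm3⟩ := Real.exists_nat_abs_mul_sub_round_le x (n := 8 * b ^ N0)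
    (by positivity)
  refine ⟨m, hm1, hm2, fun N hN => ?_⟩
  unfold vis
  rw [card_eq_zero, filter_eq_empty_iff]
  rintro n hn ⟨h1, h2⟩
  rw [mem_range] at hn
  set r : ℤ := round ((m : ℝ) * x) with hr
  have hbR : (1 : ℝ) ≤ b := by exact_mod_cast (by omega : 1 ≤ b)
  have hbn : (b : ℝ) ^ n ≤ (b : ℝ) ^ N0 := pow_le_pow_right₀ hbR (by omega)
  have hbn0 : (0 : ℝ) < (b : ℝ) ^ n := by positivity
  have h3 : |(m : ℝ) * (x * (b : ℝ) ^ n) - ((r * (b : ℤ) ^ n : ℤ) : ℝ)| ≤ 1 / 8 := by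
    have e : (m : ℝ) * (x * (b : ℝ) ^ n) - ((r * (b : ℤ) ^ n : ℤ) : ℝ) =
        (m * x - r) * (b : ℝ) ^ n := by
      push_cast
      ring
    rw [e, abs_mul, abs_of_pos hbn0]
    have h4 : |(m : ℝ) * x - r| ≤ 1 / (8 * (b : ℝ) ^ N0) := by
      refine hm3.trans ?_
      push_cast
      apply one_div_le_one_div_of_le (by positivity)
      linarith
    calc |(m : ℝ) * x - r| * (b : ℝ) ^ n ≤ 1 / (8 * (b : ℝ) ^ N0) * (b : ℝ) ^ N0 :=
          mul_le_mul h4 hbn hbn0.le (by positivity)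
      _ = 1 / 8 := by field_simp
  rw [abs_le] at h3
  set z : ℝ := (m : ℝ) * (x * (b : ℝ) ^ n) with hz
  set a : ℤ := r * (b : ℤ) ^ n with ha
  have h4 : z = ⌊z⌋ + Int.fract z := (Int.floor_add_fract z).symm
  rcases lt_trichotomy ⌊z⌋ a with h5 | h5 | h5
  · have h6 : (⌊z⌋ : ℝ) + 1 ≤ a := by exact_mod_cast h5
    linarith [h3.1]
  · have h6 : (⌊z⌋ : ℝ) = a := by exact_mod_cast h5
    linarith [h3.2]
  · have h6 : (a : ℝ) + 1 ≤ ⌊z⌋ := by exact_mod_cast h5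
    have h7 := Int.fract_nonneg z
    linarith [h3.2]

/-- **the finite criterion from one interval** -/
theorem one_interval (b : ℕ) (hb : 2 ≤ b) (s : ℝ) (hs : 1 / 8 < s) (hs2 : s ≤ 1 / 3) (hg : Good s)
    (ε : ℝ) (hε : 0 < ε) :
    ∃ Q : ℕ, 1 ≤ Q ∧ ∃ δ : ℝ, 0 < δ ∧ ∀ (x : ℝ) (N : ℕ),
      (∀ m : ℕ, 1 ≤ m → m ≤ Q →
        |(vis (range N) (fun n => (m : ℝ) * (x * (b : ℝ) ^ n)) s (1 - s) : ℝ) - (1 - s - s) * N| ≤
          δ * N) →
      ∀ α β : ℝ, 0 ≤ α → α < β → β ≤ 1 →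
        |(vis (range N) (fun n => x * (b : ℝ) ^ n) α β : ℝ) - (β - α) * N| ≤ ε * N := by
  obtain ⟨q, hq, χ, hχ, hG⟩ := hg
  obtain ⟨Q, hQ, N0, δ, hδ, H⟩ := master χ b hb hq hχ ε hε
  refine ⟨max Q (8 * b ^ N0), hQ.trans (le_max_left _ _), min δ (1 / 4), by positivity,
    fun x N hS α β h0 h1 h2 => ?_⟩
  have hNR : (0 : ℝ) ≤ N := Nat.cast_nonneg _
  rcases Nat.lt_or_ge N N0 with hN | hN
  · rcases Nat.eq_zero_or_pos N with h3 | h3
    · subst h3
      simp [vis]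
    · exfalso
      obtain ⟨m, hm1, hm2, hm3⟩ := small_visits b hb s hs N0 x
      have h4 := hS m hm1 (hm2.trans (le_max_right _ _))
      rw [hm3 N hN.le] at h4
      have h5 : (1 : ℝ) ≤ N := by exact_mod_cast h3
      have h6 : min δ (1 / 4) * (N : ℝ) ≤ 1 / 4 * N :=
        mul_le_mul_of_nonneg_right (min_le_right _ _) hNR
      rw [abs_le] at h4
      have h7 := h4.1
      push_cast at h7
      have h8 : (1 / 3 : ℝ) * N ≤ (1 - s - s) * N := mul_le_mul_of_nonneg_right (by linarith) hNR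
      linarith
  · refine H x N hN (fun m hm hmQ => ?_) α β h0 h1 h2
    have h3 := hG (range N) (fun n => (m : ℝ) * (x * (b : ℝ) ^ n))
    rw [card_range] at h3
    refine h3.trans ((hS m hm (hmQ.trans (le_max_left _ _))).trans ?_)
    exact mul_le_mul_of_nonneg_right (min_le_left _ _) hNR

/-- the limit form of the criterion -/
theorem ud_of_lim (b : ℕ) (hb : 2 ≤ b) {q : ℕ} (hq : 1 ≤ q) (χ : DirichletCharacter ℂ q)
    (hχ : χ (-1) = -1) (x : ℝ)
    (h : ∀ m : ℕ, 1 ≤ m →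
      Tendsto (fun N : ℕ => ‖∑ n ∈ range N, Phi χ (m * (x * (b : ℝ) ^ n))‖ / N) atTop (𝓝 0)) :
    UD fun n => x * (b : ℝ) ^ n := by
  intro s t h0 h1 h2
  rcases eq_or_lt_of_le h1 with h3 | h3
  · subst h3
    have e : ∀ N : ℕ, ((((Finset.range N).filter (fun n => s ≤ Int.fract (x * (b : ℝ) ^ n) ∧
        Int.fract (x * (b : ℝ) ^ n) < s)).card : ℝ) / (N : ℝ)) = 0 := by
      intro N
      rw [filter_eq_empty_iff.2 (fun n _ h => absurd h.1 (not_le.2 h.2))]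
      simp
    simp only [e, sub_self]
    exact tendsto_const_nhds
  · rw [Metric.tendsto_atTop]
    intro ε hε
    obtain ⟨Q, hQ, N0, δ, hδ, H⟩ := master χ b hb hq hχ (ε / 2) (by positivity)
    have hall : ∀ᶠ N : ℕ in atTop, ∀ m ∈ Icc 1 Q,
        ‖∑ n ∈ range N, Phi χ (m * (x * (b : ℝ) ^ n))‖ / N < δ := by
      rw [eventually_all_finset]
      intro m hm
      exact (h m (mem_Icc.1 hm).1).eventually (gt_mem_nhds hδ)
    obtain ⟨N1, hN1⟩ := eventually_atTop.1 ((hall.and (eventually_ge_atTop N0)).and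
      (eventually_gt_atTop 0))
    refine ⟨N1, fun N hN => ?_⟩
    obtain ⟨⟨h4, h5⟩, h6⟩ := hN1 N hN
    have hNR : (0 : ℝ) < N := by exact_mod_cast h6
    have h7 := H x N h5 (fun m hm hmQ => by
      have h8 := h4 m (mem_Icc.2 ⟨hm, hmQ⟩)
      rw [div_lt_iff₀ hNR] at h8
      exact h8.le) s t h0 h3 h2
    unfold vis at h7
    rw [Real.dist_eq]
    have e : ∀ V : ℝ, V / N - (t - s) = (V - (t - s) * N) / N := by
      intro V
      field_simp
    rw [e, abs_div, abs_of_pos hNR, div_lt_iff₀ hNR]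
    nlinarith

/-- densities of shifted sequences -/
lemma shift_dens (f : ℕ → ℝ) (C : ℝ) (hf : ∀ n, |f n| ≤ C) (c : ℝ)
    (h : Tendsto (fun N : ℕ => (∑ n ∈ range N, f n) / N) atTop (𝓝 c)) :
    Tendsto (fun N : ℕ => (∑ n ∈ range N, f (n + 1)) / N) atTop (𝓝 c) := by
  have h1 : Tendsto (fun N : ℕ => (f N - f 0) / (N : ℝ)) atTop (𝓝 0) := by
    have h2 : Tendsto (fun N : ℕ => (2 * C) / (N : ℝ)) atTop (𝓝 0) :=
      tendsto_const_div_atTop_nhds_zero_nat (2 * C)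
    refine squeeze_zero_norm (fun N => ?_) h2
    rw [Real.norm_eq_abs, abs_div, abs_of_nonneg (Nat.cast_nonneg N : (0 : ℝ) ≤ N)]
    apply div_le_div_of_nonneg_right _ (Nat.cast_nonneg _)
    have := abs_sub (f N) (f 0)
    have h3 := hf N
    have h4 := hf 0
    linarith
  have h2 := h.add h1
  rw [add_zero] at h2
  refine h2.congr fun N => ?_
  rw [← add_div]
  congr 1
  have h3 := sum_range_succ f N
  have h4 := sum_range_succ' f N
  linarith

/-- reduction to the multipliers which are not divisible by the base -/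
lemma reduce (b : ℕ) (hb : 2 ≤ b) (x : ℝ) (g : ℝ → ℝ) (C : ℝ) (hg : ∀ y, |g y| ≤ C) (c : ℝ)
    (h : ∀ m : ℕ, ¬ b ∣ m →
      Tendsto (fun N : ℕ => (∑ n ∈ range N, g (m * x * (b : ℝ) ^ n)) / N) atTop (𝓝 c)) (m : ℕ)
    (hm : 1 ≤ m) :
    Tendsto (fun N : ℕ => (∑ n ∈ range N, g (m * x * (b : ℝ) ^ n)) / N) atTop (𝓝 c) := by
  induction m using Nat.strong_induction_on with
  | _ m ih =>
    by_cases hd : b ∣ m
    · obtain ⟨m', rfl⟩ := hd
      have hm' : 1 ≤ m' := by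
        rcases Nat.eq_zero_or_pos m' with h0 | h0
        · subst h0
          omega
        · exact h0
      have h1 := ih m' (by nlinarith) hm'
      have h2 := shift_dens (fun n => g (m' * x * (b : ℝ) ^ n)) C (fun n => hg _) c h1
      refine h2.congr fun N => ?_
      congr 1
      refine sum_congr rfl fun n _ => ?_
      congr 1
      push_cast
      ring
    · exact h m hd

end Pool.Agent.N915.HT
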